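import Mathlib

set_option autoImplicit false

/-!
Generation of finite 2-groups: general lemmas.
-/

namespace Pool.Agent.helper17.DMax

open Subgroup

section
variable {W : Type*} [Group W] [Finite W]

lemma relIndex_ne_zero' (L H : Subgroup W) : L.relIndex H ≠ 0 := by
  unfold relIndex
  exact index_ne_zero_of_finite

/-- a subgroup of index at most `2 ^ m` can be completed by `m` generators -/
lemma exists_gens (m : ℕ) : ∀ (L H : Subgroup W), L ≤ H → L.relIndex H ≤ 2 ^ m →
    ∃ s : Finset W, s.card ≤ m ∧ (s : Set W) ⊆ H ∧ L ⊔ closure (s : Set W) = H := by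
  classical
  induction m with
  | zero =>
    intro L H hLH h
    refine ⟨∅, le_rfl, by simp, ?_⟩
    have h0 : L.relIndex H ≠ 0 := relIndex_ne_zero' _ _
    have h1 : L.relIndex H = 1 := by
      rw [pow_zero] at h
      omega
    have : H ≤ L := relIndex_eq_one.mp h1
    simp [le_antisymm hLH this]
  | succ m ih =>
    intro L H hLH h
    by_cases hHL : H ≤ L
    · exact ⟨∅, by simp, by simp, by simp [le_antisymm hLH hHL]⟩
    · obtain ⟨x, hxH, hxL⟩ := Set.not_subset.mp hHL
      have hL' : L ⊔ zpowers x ≤ H := sup_le hLH (by rw [zpowers_le]; exact hxH)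
      have h1 : L.relIndex (L ⊔ zpowers x) * (L ⊔ zpowers x).relIndex H = L.relIndex H :=
        relIndex_mul_relIndex _ _ _ le_sup_left hL'
      have h2 : 2 ≤ L.relIndex (L ⊔ zpowers x) := by
        have h3 : L.relIndex (L ⊔ zpowers x) ≠ 0 := relIndex_ne_zero' _ _
        have h4 : L.relIndex (L ⊔ zpowers x) ≠ 1 := by
          intro h4
          have := relIndex_eq_one.mp h4
          exact hxL (this (mem_sup_right (mem_zpowers x)))
        omega
      obtain ⟨s, hs, hsub, hs'⟩ := ih (L ⊔ zpowers x) H hL' (by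
        have h5 : 2 * (L ⊔ zpowers x).relIndex H ≤ 2 ^ (m + 1) := by
          calc 2 * (L ⊔ zpowers x).relIndex H
              ≤ L.relIndex (L ⊔ zpowers x) * (L ⊔ zpowers x).relIndex H :=
                Nat.mul_le_mul_right _ h2
            _ ≤ 2 ^ (m + 1) := by rw [h1]; exact h
        rw [pow_succ] at h5
        omega)
      refine ⟨insert x s, (Finset.card_insert_le _ _).trans (by omega), ?_, ?_⟩
      · rw [Finset.coe_insert]
        exact Set.insert_subset hxH hsub
      · rw [Finset.coe_insert, Set.insert_eq, Subgroup.closure_union, ← zpowers_eq_closure, ← sup_assoc]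
        exact hs'

/-- In a finite `2`-group the squares are non-generators. -/
lemma closure_of_sup_squares {H : Subgroup W} (hH : IsPGroup 2 H) {M : Subgroup W} (hMH : M ≤ H)
    (h : closure {x : W | ∃ y ∈ H, x = y ^ 2} ⊔ M = H) : M = H := by
  by_contra hne
  have : Fact (Nat.Prime 2) := ⟨Nat.prime_two⟩
  obtain ⟨n, hn⟩ := IsPGroup.iff_card.mp hH
  have hM : IsPGroup 2 (M.subgroupOf H) := hH.to_subgroup _
  obtain ⟨a, ha⟩ := IsPGroup.iff_card.mp hM
  have hlt : M.subgroupOf H ≠ ⊤ := by
    intro h1
    rw [subgroupOf_eq_top] at h1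
    exact hne (le_antisymm hMH h1)
  have han : a < n := by
    have h1 : Nat.card (M.subgroupOf H) < Nat.card H := by
      have h2 := card_mul_index (M.subgroupOf H)
      have h3 : (M.subgroupOf H).index ≠ 1 := by
        rw [Ne, index_eq_one]; exact hlt
      have h4 : (M.subgroupOf H).index ≠ 0 := index_ne_zero_of_finite
      have h5 : 0 < Nat.card (M.subgroupOf H) := Nat.card_pos
      rw [← h2]
      have h6 : 2 ≤ (M.subgroupOf H).index := by omega
      nlinarith
    rw [ha, hn] at h1
    exact (Nat.pow_lt_pow_iff_right (by norm_num)).mp h1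
  obtain ⟨K, hK, hMK⟩ := Sylow.exists_subgroup_card_pow_prime_le (G := H) 2 (n := a) (m := n - 1)
    (by rw [hn]; exact pow_dvd_pow 2 (Nat.sub_le _ _)) (M.subgroupOf H) ha (by omega)
  have hKi : K.index = 2 := by
    have h2 := card_mul_index K
    rw [hK, hn] at h2
    obtain ⟨n', rfl⟩ : ∃ n', n = n' + 1 := ⟨n - 1, by omega⟩
    rw [Nat.add_sub_cancel, pow_succ] at h2
    exact Nat.eq_of_mul_eq_mul_left (by positivity) h2
  -- all of `H` lies in the image of `K`
  have hle : closure {x : W | ∃ y ∈ H, x = y ^ 2} ⊔ M ≤ K.map H.subtype := by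
    refine sup_le ?_ ?_
    · rw [closure_le]
      rintro x ⟨y, hy, rfl⟩
      exact ⟨(⟨y, hy⟩ : H) ^ 2, sq_mem_of_index_two hKi _, rfl⟩
    · intro x hx
      exact ⟨⟨x, hMH hx⟩, hMK hx, rfl⟩
  rw [h] at hle
  have hKtop : K = ⊤ := by
    rw [eq_top_iff]
    rintro ⟨x, hx⟩ -
    obtain ⟨y, hy, hyx⟩ := hle hx
    have : y = ⟨x, hx⟩ := Subtype.ext hyx
    rwa [← this]
  rw [hKtop, index_top] at hKi
  omega

/-- the number of generators is at most the exponent of the index of the squares -/
lemma exists_gens_of_squares {H : Subgroup W} (hH : IsPGroup 2 H) {m : ℕ}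
    (h : (closure {x : W | ∃ y ∈ H, x = y ^ 2}).relIndex H ≤ 2 ^ m) :
    ∃ s : Finset W, s.card ≤ m ∧ closure (s : Set W) = H := by
  obtain ⟨s, hs, hsub, hs'⟩ := exists_gens m _ H (by
    rw [closure_le]
    rintro x ⟨y, hy, rfl⟩
    exact H.pow_mem hy 2) h
  exact ⟨s, hs, closure_of_sup_squares hH (by rwa [closure_le]) hs'⟩

end

/-- a group of exponent two generated by `t` has at most `2 ^ |t|` elements -/
lemma card_closure_le {Q : Type*} [Group Q] [Finite Q] (hQ : ∀ x : Q, x ^ 2 = 1) (t : Finset Q) :
    Nat.card (closure (t : Set Q)) ≤ 2 ^ t.card := by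
  classical
  have hcomm : ∀ a b : Q, a * b = b * a := by
    intro a b
    have h1 : ∀ x : Q, x⁻¹ = x := fun x => by
      rw [inv_eq_iff_mul_eq_one, ← pow_two]; exact hQ x
    have h2 := h1 (a * b)
    rw [mul_inv_rev, h1, h1] at h2
    exact h2.symm
  let inst : CommGroup Q := { (inferInstance : Group Q) with mul_comm := hcomm }
  induction t using Finset.induction_on with
  | empty => simp
  | insert a t hat ih =>
    rw [Finset.coe_insert, Set.insert_eq, Subgroup.closure_union, ← zpowers_eq_closure,
      Finset.card_insert_of_notMem hat, pow_succ]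
    have h1 : Nat.card (zpowers a) ≤ 2 := by
      rw [Nat.card_zpowers]
      exact Nat.le_of_dvd (by norm_num) (orderOf_dvd_of_pow_eq_one (hQ a))
    have h2 : Nat.card ((zpowers a ⊔ closure (t : Set Q) : Subgroup Q)) ≤
        Nat.card (zpowers a × closure (t : Set Q)) := by
      let f : zpowers a × closure (t : Set Q) → (zpowers a ⊔ closure (t : Set Q) : Subgroup Q) :=
        fun p => ⟨p.1.1 * p.2.1, mul_mem (mem_sup_left p.1.2) (mem_sup_right p.2.2)⟩
      refine Nat.card_le_card_of_surjective f ?_
      rintro ⟨x, hx⟩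
      obtain ⟨y, hy, z, hz, h⟩ := mem_sup.mp hx
      exact ⟨(⟨y, hy⟩, ⟨z, hz⟩), Subtype.ext h⟩
    rw [Nat.card_prod] at h2
    calc _ ≤ Nat.card (zpowers a) * Nat.card (closure (t : Set Q)) := h2
      _ ≤ 2 * 2 ^ t.card := Nat.mul_le_mul h1 ih
      _ = _ := by ring

/-- lower bound for the number of generators -/
lemma card_gens_ge {W Q : Type*} [Group W] [Group Q] [Finite Q] (hQ : ∀ x : Q, x ^ 2 = 1)
    {P : Subgroup W} (φ : P →* Q) (hφ : Function.Surjective φ) {d : ℕ} (hd : 2 ^ d ≤ Nat.card Q)
    (t : Finset W) (ht : closure (t : Set W) = P) : d ≤ t.card := by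
  classical
  have htP : ∀ x ∈ t, x ∈ P := fun x hx => by rw [← ht]; exact subset_closure hx
  let t' : Finset Q := t.attach.image (fun x => φ ⟨x.1, htP x.1 x.2⟩)
  have h1 : closure (t' : Set Q) = ⊤ := by
    have h2 : closure ((fun x : P => (x : W)) ⁻¹' (t : Set W)) = (⊤ : Subgroup P) := by
      have h3 : (closure ((fun x : P => (x : W)) ⁻¹' (t : Set W))).map P.subtype = P := by
        rw [MonoidHom.map_closure]
        conv_rhs => rw [← ht]
        congr 1
        ext x
        constructor
        · rintro ⟨y, hy, rfl⟩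
          exact hy
        · intro hx
          exact ⟨⟨x, htP x hx⟩, hx, rfl⟩
      rw [eq_top_iff]
      rintro ⟨x, hx⟩ -
      rw [← h3] at hx
      obtain ⟨y, hy, hyx⟩ := hx
      have : y = ⟨x, by rw [← hyx]; exact y.2⟩ := Subtype.ext hyx
      rwa [← this]
    have h4 : (closure ((fun x : P => (x : W)) ⁻¹' (t : Set W))).map φ = ⊤ := by
      rw [h2, ← MonoidHom.range_eq_map, MonoidHom.range_eq_top.mpr hφ]
    rw [MonoidHom.map_closure] at h4
    rw [← h4]
    congr 1
    ext x
    simp only [t', Finset.coe_image, Set.mem_image, Finset.mem_coe, Finset.mem_attach, true_and,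
      Subtype.exists, Set.mem_preimage]
    constructor
    · rintro ⟨a, ha, rfl⟩
      exact ⟨a, htP a ha, ha, rfl⟩
    · rintro ⟨a, ha, ha', rfl⟩
      exact ⟨a, ha', rfl⟩
  have h5 := card_closure_le hQ t'
  rw [h1, card_top] at h5
  have h6 : t'.card ≤ t.card := Finset.card_image_le.trans (by rw [Finset.card_attach])
  have h7 : 2 ^ d ≤ 2 ^ t.card :=
    hd.trans (h5.trans (Nat.pow_le_pow_right (by norm_num) h6))
  exact (Nat.pow_le_pow_iff_right (by norm_num)).mp h7

/-- Transfer of the statement from a subgroup of any finite group to permutation groups. -/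
lemma transfer {W : Type*} [Group W] [Finite W] (c : ℕ) (P : Subgroup W) (hP : IsPGroup 2 P)
    (hmax : ∀ H : Subgroup W, H < P → ∃ s : Finset W, closure (s : Set W) = H ∧
      ∀ t : Finset W, closure (t : Set W) = P → s.card < t.card)
    (hclass : P.lowerCentralSeries c ≠ ⊥) :
    ∃ n : ℕ, ∃ P : Subgroup (Equiv.Perm (Fin n)),
      IsPGroup 2 P ∧
      (∀ H : Subgroup (Equiv.Perm (Fin n)), H < P →
        ∃ s : Finset (Equiv.Perm (Fin n)),
          closure (↑s : Set (Equiv.Perm (Fin n))) = H ∧
          ∀ t : Finset (Equiv.Perm (Fin n)),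
            closure (↑t : Set (Equiv.Perm (Fin n))) = P → s.card < t.card) ∧
      P.lowerCentralSeries c ≠ ⊥ := by
  classical
  have := Fintype.ofFinite W
  let e := Fintype.equivFin W
  let φ : W →* Equiv.Perm (Fin (Fintype.card W)) :=
    (e.permCongrHom.toMonoidHom).comp (MulAction.toPermHom W W)
  have hφ : Function.Injective φ := by
    intro a b hab
    have h1 : MulAction.toPermHom W W a = MulAction.toPermHom W W b :=
      e.permCongrHom.injective hab
    exact MulAction.toPerm_injective h1
  refine ⟨Fintype.card W, P.map φ, ?_, ?_, ?_⟩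
  · exact hP.map φ
  · intro H hH
    have hHmap : (H.comap φ).map φ = H := by
      rw [map_comap_eq, inf_eq_right]
      exact hH.le.trans (map_le_range φ P)
    have hlt : H.comap φ < P := by
      refine lt_of_le_of_ne ?_ ?_
      · intro x hx
        obtain ⟨y, hy, hyx⟩ := hH.le hx
        rwa [← hφ hyx]
      · intro h
        rw [h] at hHmap
        exact hH.ne hHmap.symm
    obtain ⟨s, hs, hs'⟩ := hmax _ hlt
    refine ⟨s.image φ, ?_, ?_⟩
    · rw [Finset.coe_image, ← MonoidHom.map_closure, hs, hHmap]
    · intro t ht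
      refine lt_of_le_of_lt Finset.card_image_le ?_
      have htr : ∀ y ∈ t, ∃ x, φ x = y := by
        intro y hy
        have : y ∈ P.map φ := by rw [← ht]; exact subset_closure hy
        obtain ⟨x, -, hx⟩ := this
        exact ⟨x, hx⟩
      have hpre : (t.preimage φ hφ.injOn).image φ = t := by
        ext y
        rw [Finset.mem_image]
        constructor
        · rintro ⟨x, hx, rfl⟩
          exact Finset.mem_preimage.mp hx
        · intro hy
          obtain ⟨x, rfl⟩ := htr y hy
          exact ⟨x, Finset.mem_preimage.mpr hy, rfl⟩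
      have hcl : closure ((t.preimage φ hφ.injOn : Finset W) : Set W) = P := by
        have h1 : (closure ((t.preimage φ hφ.injOn : Finset W) : Set W)).map φ = P.map φ := by
          rw [MonoidHom.map_closure, ← Finset.coe_image, hpre, ht]
        exact map_injective hφ h1
      have h2 := hs' _ hcl
      have h3 : (t.preimage φ hφ.injOn).card = t.card := by
        rw [← Finset.card_image_of_injective _ hφ, hpre]
      omega
  · rw [← map_lowerCentralSeries]
    intro h
    rw [map_eq_bot_iff_of_injective _ hφ] at h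
    exact hclass h

end Pool.Agent.helper17.DMax
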