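import Mathlib

set_option autoImplicit false

/-!
The wreath type group `W r` of pairs `(f, x)` with `x` in `E = F_2^r` and `f : E → Z / 2^(r+1)`, and
the translation stable subgroup `B` generated by the functions `g S p` equal to `|E : S|` on the
coset `S - p` and `0` elsewhere.
-/

namespace Pool.Agent.helper17.DMax

abbrev E (r : ℕ) := Fin r → ZMod 2

abbrev A (r : ℕ) := E r → ZMod (2 ^ (r + 1))

instance (r : ℕ) : NeZero (2 ^ (r + 1)) := ⟨by positivity⟩

@[ext] structure W (r : ℕ) where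
  f : A r
  x : E r

variable {r : ℕ}

lemma E_add_self (x : E r) : x + x = 0 := by
  ext i
  exact CharTwo.add_self_eq_zero _

/-- translation of functions -/
def tr (x : E r) : A r →+ A r where
  toFun f := fun z => f (z + x)
  map_zero' := rfl
  map_add' _ _ := rfl

@[simp] lemma tr_apply (x : E r) (f : A r) (z : E r) : tr x f z = f (z + x) := rfl

lemma tr_tr (x y : E r) (f : A r) : tr x (tr y f) = tr (x + y) f := by
  ext z
  simp [add_assoc]

@[simp] lemma tr_zero (f : A r) : tr 0 f = f := by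
  ext z
  simp

instance : Group (W r) where
  mul a b := ⟨a.f + tr a.x b.f, a.x + b.x⟩
  one := ⟨0, 0⟩
  inv a := ⟨- tr a.x a.f, a.x⟩
  mul_assoc a b c := by
    change (⟨(a.f + tr a.x b.f) + tr (a.x + b.x) c.f, a.x + b.x + c.x⟩ : W r) =
      ⟨a.f + tr a.x (b.f + tr b.x c.f), a.x + (b.x + c.x)⟩
    rw [map_add, tr_tr, add_assoc, add_assoc]
  one_mul a := by
    change (⟨0 + tr 0 a.f, 0 + a.x⟩ : W r) = a
    rw [tr_zero, zero_add, zero_add]
  mul_one a := by
    change (⟨a.f + tr a.x 0, a.x + 0⟩ : W r) = a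
    rw [map_zero, add_zero, add_zero]
  inv_mul_cancel a := by
    change (⟨- tr a.x a.f + tr a.x a.f, a.x + a.x⟩ : W r) = ⟨0, 0⟩
    rw [neg_add_cancel, E_add_self]

@[simp] lemma mul_f (a b : W r) : (a * b).f = a.f + tr a.x b.f := rfl
@[simp] lemma mul_x (a b : W r) : (a * b).x = a.x + b.x := rfl
@[simp] lemma one_f : (1 : W r).f = 0 := rfl
@[simp] lemma one_x : (1 : W r).x = 0 := rfl
@[simp] lemma inv_f (a : W r) : (a⁻¹).f = - tr a.x a.f := rfl
@[simp] lemma inv_x (a : W r) : (a⁻¹).x = a.x := rfl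

lemma sq_eq (a : W r) : a ^ 2 = ⟨a.f + tr a.x a.f, 0⟩ := by
  rw [pow_two]
  apply W.ext
  · rfl
  · exact E_add_self _

def WEquiv (r : ℕ) : W r ≃ A r × E r where
  toFun a := (a.f, a.x)
  invFun p := ⟨p.1, p.2⟩
  left_inv _ := rfl
  right_inv _ := rfl

instance : Finite (W r) := Finite.of_equiv _ (WEquiv r).symm

lemma card_E (r : ℕ) : Nat.card (E r) = 2 ^ r := by
  simp [Nat.card_eq_fintype_card]

lemma card_A (r : ℕ) : Nat.card (A r) = 2 ^ ((r + 1) * 2 ^ r) := by
  simp [Nat.card_eq_fintype_card, ← pow_mul]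

lemma card_W (r : ℕ) : Nat.card (W r) = 2 ^ ((r + 1) * 2 ^ r + r) := by
  rw [Nat.card_congr (WEquiv r), Nat.card_prod, card_E, card_A, pow_add]

lemma isPGroup_W (r : ℕ) : IsPGroup 2 (W r) := IsPGroup.of_card (card_W r)

/-! ### the functions `g S p` -/

open Classical in
/-- the function equal to the index of `S` on the translate of `S` by `p` -/
noncomputable def g (S : AddSubgroup (E r)) (p : E r) : A r :=
  fun z => if z + p ∈ S then (S.index : ZMod (2 ^ (r + 1))) else 0

/-- the group generated by the functions `g S p` -/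
noncomputable def B (r : ℕ) : AddSubgroup (A r) :=
  AddSubgroup.closure {f | ∃ (S : AddSubgroup (E r)) (p : E r), f = g S p}

lemma g_mem (S : AddSubgroup (E r)) (p : E r) : g S p ∈ B r :=
  AddSubgroup.subset_closure ⟨S, p, rfl⟩

lemma tr_g (S : AddSubgroup (E r)) (p x : E r) : tr x (g S p) = g S (p + x) := by
  ext z
  simp only [tr_apply, g]
  rw [show z + x + p = z + (p + x) by abel]

lemma tr_mem {f : A r} (hf : f ∈ B r) (x : E r) : tr x f ∈ B r := by
  have h : B r ≤ (B r).comap (tr x) := by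
    unfold B
    rw [AddSubgroup.closure_le]
    rintro _ ⟨S, p, rfl⟩
    change tr x (g S p) ∈ B r
    rw [tr_g]
    exact g_mem _ _
  exact h hf

/-- enlarging `S` by `x` -/
def ext (S : AddSubgroup (E r)) (x : E r) : AddSubgroup (E r) where
  carrier := {z | z ∈ S ∨ z + x ∈ S}
  zero_mem' := Or.inl S.zero_mem
  add_mem' := by
    rintro a b (ha | ha) (hb | hb)
    · exact Or.inl (S.add_mem ha hb)
    · right
      rw [add_assoc]
      exact S.add_mem ha hb
    · right
      rw [show a + b + x = (a + x) + b by abel]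
      exact S.add_mem ha hb
    · left
      have h := S.add_mem ha hb
      rwa [show a + x + (b + x) = (a + b) + (x + x) by abel, E_add_self, add_zero] at h
  neg_mem' := by
    rintro a ha
    have : -a = a := by
      rw [neg_eq_iff_add_eq_zero]; exact E_add_self a
    rwa [this]

lemma mem_ext {S : AddSubgroup (E r)} {x z : E r} : z ∈ ext S x ↔ z ∈ S ∨ z + x ∈ S := Iff.rfl

lemma not_both {S : AddSubgroup (E r)} {x z : E r} (hx : x ∉ S) (h1 : z ∈ S) (h2 : z + x ∈ S) :
    False := by
  apply hx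
  have h := S.add_mem h1 h2
  rwa [← add_assoc, E_add_self, zero_add] at h

lemma index_ext {S : AddSubgroup (E r)} {x : E r} (hx : x ∉ S) :
    S.index = 2 * (ext S x).index := by
  have hle : S ≤ ext S x := fun z hz => Or.inl hz
  have h1 : S.relIndex (ext S x) = 2 := by
    rw [AddSubgroup.relIndex_eq_two_iff]
    refine ⟨x, ?_, ?_⟩
    · right
      rw [E_add_self]
      exact S.zero_mem
    · intro b hb
      rcases hb with hb | hb
      · right
        exact ⟨hb, fun h => not_both hx hb h⟩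
      · left
        exact ⟨hb, fun h => not_both hx h hb⟩
  rw [← AddSubgroup.relIndex_mul_index hle, h1]

/-- the difference identity -/
lemma tr_sub_g {S : AddSubgroup (E r)} {x : E r} (hx : x ∉ S) (p : E r) :
    tr x (g S p) - g S p = 2 • (g (ext S x) p - g S p) := by
  classical
  ext z
  simp only [Pi.sub_apply, Pi.smul_apply, tr_apply, g, mem_ext, index_ext hx]
  rw [show z + x + p = z + p + x by abel]
  by_cases h1 : z + p ∈ S
  · have h2 : ¬ (z + p + x ∈ S) := fun h => not_both hx h1 h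
    rw [if_neg h2, if_pos h1, if_pos (Or.inl h1)]
    push_cast
    ring
  · by_cases h2 : z + p + x ∈ S
    · rw [if_pos h2, if_neg h1, if_pos (Or.inr h2)]
      push_cast
      ring
    · rw [if_neg h2, if_neg h1, if_neg (by tauto)]
      simp

lemma tr_sub_g' {S : AddSubgroup (E r)} {x : E r} (hx : x ∈ S) (p : E r) :
    tr x (g S p) - g S p = 0 := by
  classical
  ext z
  simp only [Pi.sub_apply, tr_apply, g, Pi.zero_apply]
  rw [show z + x + p = z + p + x by abel, AddSubgroup.add_mem_cancel_right S hx, sub_self]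

/-- the difference lemma -/
lemma tr_sub_mem {f : A r} (hf : f ∈ B r) (x : E r) : ∃ b ∈ B r, tr x f - f = 2 • b := by
  unfold B at hf
  induction hf using AddSubgroup.closure_induction with
  | mem f hf =>
    obtain ⟨S, p, rfl⟩ := hf
    by_cases hx : x ∈ S
    · exact ⟨0, (B r).zero_mem, by rw [tr_sub_g' hx, smul_zero]⟩
    · exact ⟨_, (B r).sub_mem (g_mem _ _) (g_mem _ _), tr_sub_g hx p⟩
  | zero => exact ⟨0, (B r).zero_mem, by simp⟩
  | add f1 f2 _ _ h1 h2 =>
    obtain ⟨b1, hb1, e1⟩ := h1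
    obtain ⟨b2, hb2, e2⟩ := h2
    refine ⟨b1 + b2, (B r).add_mem hb1 hb2, ?_⟩
    rw [smul_add, ← e1, ← e2, map_add]
    abel
  | neg f1 _ h1 =>
    obtain ⟨b1, hb1, e1⟩ := h1
    refine ⟨-b1, (B r).neg_mem hb1, ?_⟩
    rw [smul_neg, ← e1, map_neg]
    abel

/-! ### the elements of order two -/

lemma two_smul_eq_zero_iff (z : ZMod (2 ^ (r + 1))) :
    2 • z = 0 ↔ z = 0 ∨ z = ((2 ^ r : ℕ) : ZMod (2 ^ (r + 1))) := by
  have hz : ((z.val : ℕ) : ZMod (2 ^ (r + 1))) = z := ZMod.natCast_zmod_val z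
  have hlt : z.val < 2 ^ (r + 1) := ZMod.val_lt z
  constructor
  · intro h
    have h1 : ((2 * z.val : ℕ) : ZMod (2 ^ (r + 1))) = 0 := by
      rw [Nat.cast_mul, hz]
      simpa [nsmul_eq_mul] using h
    rw [ZMod.natCast_eq_zero_iff] at h1
    have h1' : 2 * 2 ^ r ∣ 2 * z.val := by
      rw [← pow_succ']; exact h1
    have h2 : 2 ^ r ∣ z.val := Nat.dvd_of_mul_dvd_mul_left (by norm_num) h1'
    obtain ⟨k, hk⟩ := h2
    have h3 : k < 2 := by
      rw [hk, pow_succ] at hlt
      exact Nat.lt_of_mul_lt_mul_left hlt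
    interval_cases k
    · left
      rw [← hz, hk]
      simp
    · right
      rw [← hz, hk, mul_one]
  · rintro (rfl | rfl)
    · simp
    · rw [nsmul_eq_mul, ← Nat.cast_mul, ZMod.natCast_eq_zero_iff, pow_succ, mul_comm]

lemma two_pow_ne_zero (r : ℕ) : ((2 ^ r : ℕ) : ZMod (2 ^ (r + 1))) ≠ 0 := by
  rw [Ne, ZMod.natCast_eq_zero_iff]
  intro h
  have := Nat.le_of_dvd (by positivity) h
  rw [pow_succ] at this
  have h2 : 0 < 2 ^ r := by positivity
  omega

/-- the elements of `A` killed by two -/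
def A2 (r : ℕ) : AddSubgroup (A r) where
  carrier := {f | 2 • f = 0}
  zero_mem' := smul_zero _
  add_mem' := by
    intro a b ha hb
    change 2 • (a + b) = 0
    rw [smul_add, show 2 • a = 0 from ha, show 2 • b = 0 from hb, add_zero]
  neg_mem' := by
    intro a ha
    change 2 • (-a) = 0
    rw [smul_neg, show 2 • a = 0 from ha, neg_zero]

lemma mem_A2 {f : A r} : f ∈ A2 r ↔ 2 • f = 0 := Iff.rfl

lemma card_A2 (r : ℕ) : Nat.card (A2 r) = 2 ^ (2 ^ r) := by
  classical
  let T := {z : ZMod (2 ^ (r + 1)) // 2 • z = 0}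
  have hT : Nat.card T = 2 := by
    have h1 : {z : ZMod (2 ^ (r + 1)) | 2 • z = 0} =
        {0, ((2 ^ r : ℕ) : ZMod (2 ^ (r + 1)))} := by
      ext z
      change 2 • z = 0 ↔ _
      rw [two_smul_eq_zero_iff]
      rfl
    have h2 : Nat.card T = Set.ncard {z : ZMod (2 ^ (r + 1)) | 2 • z = 0} := rfl
    rw [h2, h1, Set.ncard_pair (two_pow_ne_zero r).symm]
  let e : A2 r ≃ (E r → T) :=
    { toFun := fun f z => ⟨f.1 z, congrFun (mem_A2.mp f.2) z⟩
      invFun := fun h => ⟨fun z => (h z).1, funext fun z => (h z).2⟩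
      left_inv := fun f => rfl
      right_inv := fun h => rfl }
  rw [Nat.card_congr e, Nat.card_fun, hT, card_E]

lemma A2_le {K : AddSubgroup (A r)} (hK : ∀ p, g ⊥ p ∈ K) : A2 r ≤ K := by
  classical
  intro f hf
  have h1 : f = ∑ p : E r, (if f p = 0 then 0 else g ⊥ p) := by
    ext z
    rw [Finset.sum_apply, Finset.sum_eq_single z]
    · by_cases hz : f z = 0
      · rw [if_pos hz, hz]; rfl
      · rw [if_neg hz]
        have h2 := (two_smul_eq_zero_iff (f z)).mp (congrFun (mem_A2.mp hf) z)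
        have h3 := h2.resolve_left hz
        rw [h3, g, if_pos (by rw [E_add_self]; exact AddSubgroup.zero_mem _),
          AddSubgroup.index_bot, card_E]
    · intro p _ hp
      by_cases hz : f p = 0
      · rw [if_pos hz]; rfl
      · rw [if_neg hz, g, if_neg]
        rw [AddSubgroup.mem_bot]
        intro h
        apply hp
        have h4 : z + p + p = p := by rw [h, zero_add]
        rw [add_assoc, E_add_self, add_zero] at h4
        exact h4.symm
    · intro h
      exact absurd (Finset.mem_univ z) h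
  rw [h1]
  refine AddSubgroup.sum_mem _ fun p _ => ?_
  split_ifs
  · exact K.zero_mem
  · exact hK p

lemma g_bot_mem_A2 (p : E r) : g ⊥ p ∈ A2 r := by
  classical
  rw [mem_A2]
  ext z
  change 2 • (g ⊥ p z) = 0
  rw [two_smul_eq_zero_iff, g]
  split_ifs
  · right
    rw [AddSubgroup.index_bot, card_E]
  · left; rfl

lemma A2_le_B (r : ℕ) : A2 r ≤ B r := A2_le fun p => g_mem _ p

end Pool.Agent.helper17.DMax
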