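import Pool.Agent.helper17.DMax.Gens
import Pool.Agent.helper17.DMax.Wreath

set_option autoImplicit false

/-!
The group `P0 = {(f, x) : f ∈ B}` is `d`-maximal of unbounded class.
-/

namespace Pool.Agent.helper17.DMax

open Subgroup
open scoped commutatorElement

variable {r : ℕ}

/-- the subgroup of pairs with first entry in `B` -/
noncomputable def P0 (r : ℕ) : Subgroup (W r) where
  carrier := {a | a.f ∈ B r}
  one_mem' := (B r).zero_mem
  mul_mem' := by
    intro a b ha hb
    exact (B r).add_mem ha (tr_mem hb _)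
  inv_mem' := by
    intro a ha
    exact (B r).neg_mem (tr_mem ha _)

lemma mem_P0 {a : W r} : a ∈ P0 r ↔ a.f ∈ B r := Iff.rfl

/-- the functions `f` with `(f, 0)` in `H` -/
def KK (H : Subgroup (W r)) : AddSubgroup (A r) where
  carrier := {f | (⟨f, 0⟩ : W r) ∈ H}
  zero_mem' := H.one_mem
  add_mem' := by
    intro a b ha hb
    have h := H.mul_mem ha hb
    have h1 : (⟨a, 0⟩ : W r) * ⟨b, 0⟩ = ⟨a + b, 0⟩ := by
      apply W.ext
      · rw [mul_f]
        simp
      · rw [mul_x]
        simp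
    rwa [h1] at h
  neg_mem' := by
    intro a ha
    have h := H.inv_mem ha
    have h1 : (⟨a, 0⟩ : W r)⁻¹ = ⟨-a, 0⟩ := by
      apply W.ext
      · rw [inv_f]
        simp
      · rw [inv_x]
    rwa [h1] at h

lemma mem_KK {H : Subgroup (W r)} {f : A r} : f ∈ KK H ↔ (⟨f, 0⟩ : W r) ∈ H := Iff.rfl

/-- the elements `x` occurring as second entry -/
def HE (H : Subgroup (W r)) : AddSubgroup (E r) where
  carrier := {x | ∃ f, (⟨f, x⟩ : W r) ∈ H}
  zero_mem' := ⟨0, H.one_mem⟩
  add_mem' := by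
    rintro x y ⟨f, hf⟩ ⟨g, hg⟩
    exact ⟨_, H.mul_mem hf hg⟩
  neg_mem' := by
    rintro x ⟨f, hf⟩
    have : -x = x := by
      rw [neg_eq_iff_add_eq_zero]; exact E_add_self x
    rw [this]
    exact ⟨f, hf⟩

lemma mem_HE {H : Subgroup (W r)} {x : E r} : x ∈ HE H ↔ ∃ f, (⟨f, x⟩ : W r) ∈ H := Iff.rfl

/-- the order of `H` -/
lemma card_H (H : Subgroup (W r)) : Nat.card H = Nat.card (HE H) * Nat.card (KK H) := by
  classical
  choose s hs using fun x : HE H => mem_HE.mp x.2
  have key : ∀ (x : E r) (f f' : A r), (⟨f', x⟩ : W r) ∈ H →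
      ((⟨f, x⟩ : W r) ∈ H ↔ f - f' ∈ KK H) := by
    intro x f f' h'
    have h1 : (⟨f - f', 0⟩ : W r) * ⟨f', x⟩ = ⟨f, x⟩ := by
      apply W.ext
      · rw [mul_f]
        simp
      · rw [mul_x]
        simp
    rw [mem_KK, ← h1]
    exact Subgroup.mul_mem_cancel_right H h'
  let e : H ≃ HE H × KK H :=
    { toFun := fun a => (⟨a.1.x, a.1.f, a.2⟩,
        ⟨a.1.f - s ⟨a.1.x, a.1.f, a.2⟩, (key _ _ _ (hs ⟨a.1.x, a.1.f, a.2⟩)).mp a.2⟩)
      invFun := fun p => ⟨⟨p.2.1 + s p.1, p.1.1⟩, (key _ _ _ (hs p.1)).mpr (by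
        rw [add_sub_cancel_right]; exact p.2.2)⟩
      left_inv := by
        rintro ⟨⟨f, x⟩, h⟩
        apply Subtype.ext
        apply W.ext
        · simp
        · rfl
      right_inv := by
        rintro ⟨⟨x, hx⟩, ⟨f, hf⟩⟩
        apply Prod.ext
        · rfl
        · apply Subtype.ext
          simp }
  rw [Nat.card_congr e, Nat.card_prod]

/-- the doubles of elements of `K` -/
def dbl (K : AddSubgroup (A r)) : AddSubgroup (A r) where
  carrier := {f | ∃ k ∈ K, f = 2 • k}
  zero_mem' := ⟨0, K.zero_mem, (smul_zero _).symm⟩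
  add_mem' := by
    rintro a b ⟨k, hk, rfl⟩ ⟨l, hl, rfl⟩
    exact ⟨k + l, K.add_mem hk hl, (smul_add _ _ _).symm⟩
  neg_mem' := by
    rintro a ⟨k, hk, rfl⟩
    exact ⟨-k, K.neg_mem hk, (smul_neg _ _).symm⟩

lemma mem_dbl {K : AddSubgroup (A r)} {f : A r} : f ∈ dbl K ↔ ∃ k ∈ K, f = 2 • k := Iff.rfl

lemma card_dbl (K : AddSubgroup (A r)) :
    Nat.card K = Nat.card (K ⊓ A2 r : AddSubgroup (A r)) * Nat.card (dbl K) := by
  classical
  choose s hs hs' using fun x : dbl K => mem_dbl.mp x.2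
  let e : K ≃ (K ⊓ A2 r : AddSubgroup (A r)) × dbl K :=
    { toFun := fun k => (⟨k.1 - s ⟨2 • k.1, k.1, k.2, rfl⟩,
        K.sub_mem k.2 (hs _), by
          change 2 • (k.1 - s ⟨2 • k.1, k.1, k.2, rfl⟩) = 0
          rw [smul_sub, ← hs' ⟨2 • k.1, k.1, k.2, rfl⟩, sub_self]⟩, ⟨2 • k.1, k.1, k.2, rfl⟩)
      invFun := fun p => ⟨p.1.1 + s p.2, K.add_mem p.1.2.1 (hs _)⟩
      left_inv := by
        rintro ⟨k, hk⟩
        apply Subtype.ext
        simp
      right_inv := by
        rintro ⟨⟨k, hk, hk'⟩, ⟨f, hf⟩⟩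
        have h1 : 2 • (k + s ⟨f, hf⟩) = f := by
          rw [smul_add, ← hs' ⟨f, hf⟩, show 2 • k = 0 from hk', zero_add]
        apply Prod.ext
        · apply Subtype.ext
          change k + s ⟨f, hf⟩ - s ⟨2 • (k + s ⟨f, hf⟩), _⟩ = k
          have h2 : s ⟨2 • (k + s ⟨f, hf⟩), ⟨_, K.add_mem hk (hs _), rfl⟩⟩ = s ⟨f, hf⟩ :=
            congrArg s (Subtype.ext h1)
          rw [h2]
          abel
        · exact Subtype.ext h1 }
  rw [Nat.card_congr e, Nat.card_prod]

/-- the subgroup generated by the squares of elements of `H` -/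
def Sq (H : Subgroup (W r)) : Subgroup (W r) := closure {x : W r | ∃ y ∈ H, x = y ^ 2}

lemma Sq_le (H : Subgroup (W r)) : Sq H ≤ H := by
  unfold Sq
  rw [closure_le]
  rintro x ⟨y, hy, rfl⟩
  exact H.pow_mem hy 2

lemma HE_Sq (H : Subgroup (W r)) : HE (Sq H) = ⊥ := by
  rw [eq_bot_iff]
  rintro x ⟨f, hf⟩
  let L : Subgroup (W r) :=
    { carrier := {a | a.x = 0}
      one_mem' := rfl
      mul_mem' := by
        intro a b ha hb
        change a.x + b.x = 0
        rw [show a.x = 0 from ha, show b.x = 0 from hb, add_zero]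
      inv_mem' := fun {a} ha => ha }
  have h : Sq H ≤ L := by
    unfold Sq
    rw [closure_le]
    rintro x ⟨y, hy, rfl⟩
    change (y ^ 2).x = 0
    rw [sq_eq]
  exact h hf

lemma card_Sq (H : Subgroup (W r)) : Nat.card (Sq H) = Nat.card (KK (Sq H)) := by
  rw [card_H, HE_Sq]
  simp

lemma dbl_le (H : Subgroup (W r)) : dbl (KK H) ≤ KK (Sq H) := by
  rintro f ⟨k, hk, rfl⟩
  rw [mem_KK]
  refine subset_closure ⟨_, hk, ?_⟩
  rw [sq_eq]
  simp only [tr_zero]
  rw [two_smul]

lemma one_sub_tr_mem {H : Subgroup (W r)} {f : A r} (hf : f ∈ KK H) {x : E r} (hx : x ∈ HE H) :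
    tr x f - f ∈ KK (Sq H) := by
  obtain ⟨g, hg⟩ := hx
  have h1 : (⟨f + g, x⟩ : W r) ∈ H := by
    have h := H.mul_mem hf hg
    have h1 : (⟨f, 0⟩ : W r) * ⟨g, x⟩ = ⟨f + g, x⟩ := by
      apply W.ext
      · rw [mul_f]
        simp
      · rw [mul_x]
        simp
    rwa [h1] at h
  have h2 : (f + g) + tr x (f + g) ∈ KK (Sq H) := by
    rw [mem_KK]
    exact subset_closure ⟨_, h1, by rw [sq_eq]⟩
  have h3 : g + tr x g ∈ KK (Sq H) := by
    rw [mem_KK]
    exact subset_closure ⟨_, hg, by rw [sq_eq]⟩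
  have h4 : 2 • f ∈ KK (Sq H) := dbl_le H ⟨f, hf, rfl⟩
  have h5 := (KK (Sq H)).sub_mem ((KK (Sq H)).sub_mem h2 h3) h4
  convert h5 using 1
  rw [map_add, two_smul]
  abel

/-- a proper subgroup has at most half the order -/
lemma two_mul_card_le {G : Type*} [AddGroup G] [Finite G] {L K : AddSubgroup G} (hLK : L ≤ K)
    (h : L ≠ K) : 2 * Nat.card L ≤ Nat.card K := by
  have h1 := AddSubgroup.card_dvd_of_le hLK
  obtain ⟨k, hk⟩ := h1
  have h2 : 0 < Nat.card K := Nat.card_pos
  have h3 : k ≠ 0 := by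
    rintro rfl
    omega
  have h4 : k ≠ 1 := by
    rintro rfl
    rw [mul_one] at hk
    apply h
    exact AddSubgroup.eq_of_le_of_card_ge hLK (by omega)
  rw [hk, mul_comm]
  exact Nat.mul_le_mul_left _ (by omega)

/-- the induction on the subgroup `S` -/
lemma g_mem_of {K : AddSubgroup (A r)} (hA : A2 r ≤ K)
    (hd : ∀ f ∈ K, ∀ x : E r, tr x f - f ∈ dbl K) :
    B r ≤ K := by
  classical
  -- statement for subgroups generated by finite sets
  have hstep : ∀ (S : AddSubgroup (E r)), (∀ p, g S p ∈ K) → ∀ x p, g (ext S x) p ∈ K := by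
    intro S hS x p
    by_cases hx : x ∈ S
    · have : ext S x = S := by
        ext z
        rw [mem_ext]
        constructor
        · rintro (h | h)
          · exact h
          · exact (AddSubgroup.add_mem_cancel_right S hx).mp h
        · exact Or.inl
      rw [this]
      exact hS p
    · obtain ⟨k, hk, e⟩ := hd _ (hS p) x
      rw [tr_sub_g hx] at e
      have h1 : g (ext S x) p - g S p - k ∈ A2 r := by
        rw [mem_A2, smul_sub, e, sub_self]
      have h2 := K.add_mem (K.add_mem (hA h1) hk) (hS p)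
      convert h2 using 1
      abel
  have hfin : ∀ T : Finset (E r), ∀ p, g (AddSubgroup.closure (T : Set (E r))) p ∈ K := by
    intro T
    induction T using Finset.induction_on with
    | empty =>
      intro p
      rw [Finset.coe_empty, AddSubgroup.closure_empty]
      exact hA (g_bot_mem_A2 p)
    | insert a T _ ih =>
      intro p
      have h1 : AddSubgroup.closure ((insert a T : Finset (E r)) : Set (E r)) =
          ext (AddSubgroup.closure (T : Set (E r))) a := by
        apply le_antisymm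
        · rw [AddSubgroup.closure_le, Finset.coe_insert]
          rintro z (rfl | hz)
          · right
            rw [E_add_self]
            exact AddSubgroup.zero_mem _
          · left
            exact AddSubgroup.subset_closure hz
        · have hle : AddSubgroup.closure (T : Set (E r)) ≤
              AddSubgroup.closure ((insert a T : Finset (E r)) : Set (E r)) :=
            AddSubgroup.closure_mono (by rw [Finset.coe_insert]; exact Set.subset_insert _ _)
          have ha : a ∈ AddSubgroup.closure ((insert a T : Finset (E r)) : Set (E r)) :=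
            AddSubgroup.subset_closure (by rw [Finset.coe_insert]; exact Set.mem_insert _ _)
          rintro z (hz | hz)
          · exact hle hz
          · exact (AddSubgroup.add_mem_cancel_right _ ha).mp (hle hz)
      rw [h1]
      exact hstep _ ih a p
  unfold B
  rw [AddSubgroup.closure_le]
  rintro _ ⟨S, p, rfl⟩
  have hS : AddSubgroup.closure (((S : Set (E r)).toFinset : Finset (E r)) : Set (E r)) = S := by
    rw [Set.coe_toFinset]
    exact AddSubgroup.closure_eq S
  have h := hfin (S : Set (E r)).toFinset p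
  rwa [hS] at h

/-- the main estimate for a proper subgroup -/
lemma relIndex_Sq_le {H : Subgroup (W r)} (hH : H < P0 r) (hr : 1 ≤ r) :
    (Sq H).relIndex H ≤ 2 ^ (r + 2 ^ r - 1) := by
  have hKB : KK H ≤ B r := fun f hf => hH.le hf
  have hcard : (Sq H).relIndex H * Nat.card (Sq H) = Nat.card H := by
    have h1 := relIndex_mul_relIndex ⊥ (Sq H) H bot_le (Sq_le H)
    rw [relIndex_bot_left, relIndex_bot_left] at h1
    rw [mul_comm]; exact h1
  have hpos : 0 < Nat.card (KK (Sq H)) := Nat.card_pos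
  have hn : 1 ≤ 2 ^ r := Nat.one_le_two_pow
  suffices h : Nat.card H ≤ 2 ^ (r + 2 ^ r - 1) * Nat.card (KK (Sq H)) by
    rw [← hcard, card_Sq] at h
    exact Nat.le_of_mul_le_mul_right h hpos
  have hdc : Nat.card (dbl (KK H)) ≤ Nat.card (KK (Sq H)) := by
    exact AddSubgroup.card_le_of_le (dbl_le H)
  have hK2 : Nat.card (KK H ⊓ A2 r : AddSubgroup (A r)) ≤ 2 ^ 2 ^ r := by
    rw [← card_A2]
    exact AddSubgroup.card_le_of_le inf_le_right
  have hEle : Nat.card (HE H) ≤ 2 ^ r := by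
    rw [← card_E]
    exact Nat.card_le_card_of_injective _ Subtype.val_injective
  rw [card_H, card_dbl]
  by_cases hE : HE H = ⊤
  · -- the projection is onto
    suffices h : Nat.card (KK H ⊓ A2 r : AddSubgroup (A r)) * Nat.card (dbl (KK H)) ≤
        2 ^ (2 ^ r - 1) * Nat.card (KK (Sq H)) by
      calc _ ≤ 2 ^ r * (2 ^ (2 ^ r - 1) * Nat.card (KK (Sq H))) := Nat.mul_le_mul hEle h
        _ = 2 ^ (r + 2 ^ r - 1) * Nat.card (KK (Sq H)) := by
          rw [← mul_assoc, ← pow_add]
          congr 2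
          omega
    have hpow : 2 ^ 2 ^ r = 2 * 2 ^ (2 ^ r - 1) := by
      rw [← pow_succ']
      congr 1
      omega
    by_cases h1 : KK H ⊓ A2 r = A2 r
    · by_cases h2 : dbl (KK H) = KK (Sq H)
      · exfalso
        have hA : A2 r ≤ KK H := by
          rw [← h1]; exact inf_le_left
        have hBK : B r ≤ KK H := by
          refine g_mem_of hA ?_
          intro f hf x
          rw [h2]
          exact one_sub_tr_mem hf (by rw [hE]; exact AddSubgroup.mem_top x)
        apply hH.not_ge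
        intro a ha
        have hax : a.x ∈ HE H := by rw [hE]; exact AddSubgroup.mem_top _
        obtain ⟨f, hf⟩ := hax
        have hfB : f ∈ B r := hH.le hf
        have h3 : a.f - f ∈ KK H := hBK ((B r).sub_mem ha hfB)
        have h4 := H.mul_mem h3 hf
        have h5 : (⟨a.f - f, 0⟩ : W r) * ⟨f, a.x⟩ = a := by
          apply W.ext
          · rw [mul_f]
            simp
          · rw [mul_x]
            simp
        rwa [h5] at h4
      · have h3 := two_mul_card_le (dbl_le H) h2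
        calc _ ≤ 2 ^ 2 ^ r * Nat.card (dbl (KK H)) := Nat.mul_le_mul_right _ hK2
          _ = 2 ^ (2 ^ r - 1) * (2 * Nat.card (dbl (KK H))) := by rw [hpow]; ring
          _ ≤ _ := Nat.mul_le_mul_left _ h3
    · have h3 := two_mul_card_le (inf_le_right : KK H ⊓ A2 r ≤ A2 r) h1
      rw [card_A2, hpow] at h3
      have h4 : Nat.card (KK H ⊓ A2 r : AddSubgroup (A r)) ≤ 2 ^ (2 ^ r - 1) := by omega
      exact Nat.mul_le_mul h4 hdc
  · have h1 := two_mul_card_le (le_top : HE H ≤ ⊤) hE
    rw [AddSubgroup.card_top, card_E] at h1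
    have h2 : 2 ^ r = 2 * 2 ^ (r - 1) := by
      rw [← pow_succ']
      congr 1
      omega
    have h3 : Nat.card (HE H) ≤ 2 ^ (r - 1) := by omega
    calc _ ≤ 2 ^ (r - 1) * (2 ^ 2 ^ r * Nat.card (KK (Sq H))) :=
          Nat.mul_le_mul h3 (Nat.mul_le_mul hK2 hdc)
      _ = 2 ^ (r + 2 ^ r - 1) * Nat.card (KK (Sq H)) := by
          rw [← mul_assoc, ← pow_add]
          congr 2
          omega

/-! ### the lower bound for `P0` -/

/-- doubling on `B` -/
noncomputable def dB (r : ℕ) : B r →+ B r := nsmulAddMonoidHom 2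

/-- the elementary abelian quotient -/
abbrev QQ (r : ℕ) := Multiplicative ((B r ⧸ (dB r).range) × E r)

lemma QQ_sq (x : QQ r) : x ^ 2 = 1 := by
  obtain ⟨b, e⟩ := x
  have h1 : (2 : ℕ) • b = 0 := by
    obtain ⟨b, rfl⟩ := QuotientAddGroup.mk_surjective b
    rw [← QuotientAddGroup.mk_nsmul]
    rw [QuotientAddGroup.eq_zero_iff]
    exact ⟨b, rfl⟩
  have h2 : (2 : ℕ) • e = 0 := by rw [two_smul]; exact E_add_self e
  change ((2 : ℕ) • b, (2 : ℕ) • e) = 0
  rw [h1, h2]
  rfl

lemma card_QQ (r : ℕ) : 2 ^ (r + 2 ^ r) ≤ Nat.card (QQ r) := by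
  have h0 : Nat.card (QQ r) = Nat.card (B r ⧸ (dB r).range) * Nat.card (E r) := by
    rw [← Nat.card_prod]
    rfl
  rw [h0, card_E, pow_add, mul_comm]
  apply Nat.mul_le_mul_right
  have h1 : Nat.card (dB r).range * (dB r).range.index = Nat.card (B r) :=
    AddSubgroup.card_mul_index _
  have h2 : Nat.card (dB r).ker * (dB r).ker.index = Nat.card (B r) :=
    AddSubgroup.card_mul_index _
  rw [AddSubgroup.index_ker, ← h1, mul_comm] at h2
  have h3 : Nat.card (dB r).ker = (dB r).range.index :=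
    Nat.eq_of_mul_eq_mul_left Nat.card_pos h2
  have h4 : Nat.card (B r ⧸ (dB r).range) = (dB r).range.index := rfl
  rw [h4, ← h3, ← card_A2]
  refine Nat.card_le_card_of_injective
    (fun a : A2 r => (⟨⟨a.1, A2_le_B r a.2⟩, Subtype.ext (mem_A2.mp a.2)⟩ : (dB r).ker)) ?_
  intro a b hab
  have := congrArg (fun z : (dB r).ker => (z.1.1 : A r)) hab
  exact Subtype.ext this

/-- the projection to the elementary abelian quotient -/
noncomputable def proj (r : ℕ) : P0 r →* QQ r where
  toFun a := Multiplicative.ofAdd (QuotientAddGroup.mk ⟨a.1.f, a.2⟩, a.1.x)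
  map_one' := rfl
  map_mul' a b := by
    change Multiplicative.ofAdd ((QuotientAddGroup.mk ⟨(a.1 * b.1).f, _⟩ : B r ⧸ (dB r).range),
      (a.1 * b.1).x) = Multiplicative.ofAdd
        ((QuotientAddGroup.mk (⟨a.1.f, a.2⟩ + ⟨b.1.f, b.2⟩ : B r) : B r ⧸ (dB r).range),
        a.1.x + b.1.x)
    congr 2
    rw [QuotientAddGroup.eq]
    obtain ⟨c, hc, e⟩ := tr_sub_mem b.2 a.1.x
    refine ⟨-⟨c, hc⟩, ?_⟩
    apply Subtype.ext
    change 2 • (-c) = -(a.1.f + tr a.1.x b.1.f) + (a.1.f + b.1.f)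
    rw [smul_neg, ← e]
    abel

lemma proj_surj (r : ℕ) : Function.Surjective (proj r) := by
  rintro ⟨b, e⟩
  obtain ⟨⟨b, hb⟩, rfl⟩ := QuotientAddGroup.mk_surjective b
  exact ⟨⟨⟨b, e⟩, hb⟩, rfl⟩

/-- `P0` is `d`-maximal -/
lemma P0_max (hr : 1 ≤ r) (H : Subgroup (W r)) (hH : H < P0 r) :
    ∃ s : Finset (W r), closure (s : Set (W r)) = H ∧
      ∀ t : Finset (W r), closure (t : Set (W r)) = P0 r → s.card < t.card := by
  obtain ⟨s, hs, hs'⟩ := exists_gens_of_squares ((isPGroup_W r).to_subgroup H)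
    (relIndex_Sq_le hH hr)
  refine ⟨s, hs', fun t ht => ?_⟩
  have h1 := card_gens_ge QQ_sq (proj r) (proj_surj r) (card_QQ r) t ht
  have hn : 1 ≤ 2 ^ r := Nat.one_le_two_pow
  omega

/-! ### the class -/

/-- the hyperplane of points with first coordinate zero -/
def hyp (r : ℕ) : AddSubgroup (E (r + 1)) where
  carrier := {z | z 0 = 0}
  zero_mem' := rfl
  add_mem' := by
    intro a b ha hb
    change a 0 + b 0 = 0
    rw [show a 0 = 0 from ha, show b 0 = 0 from hb, add_zero]
  neg_mem' := by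
    intro a ha
    change - a 0 = 0
    rw [show a 0 = 0 from ha, neg_zero]

/-- the function equal to two on the hyperplane and to minus two off it -/
noncomputable def f0 (r : ℕ) : A (r + 1) := g (hyp r) 0 - tr (fun _ => 1) (g (hyp r) 0)

lemma f0_mem (r : ℕ) : f0 r ∈ B (r + 1) := (B (r + 1)).sub_mem (g_mem _ _) (tr_mem (g_mem _ _) _)

lemma tr_f0 (r : ℕ) : tr (fun _ => 1) (f0 r) = - f0 r := by
  unfold f0
  rw [map_sub, tr_tr, E_add_self, tr_zero]
  abel

lemma f0_apply (r : ℕ) : f0 r 0 = 2 := by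
  classical
  have hx : (fun _ => 1 : E (r + 1)) ∉ hyp r := by
    intro h
    have : (1 : ZMod 2) = 0 := h
    exact absurd this (by decide)
  have hidx : (hyp r).index = 2 := by
    rw [AddSubgroup.index_eq_two_iff]
    refine ⟨fun _ => 1, fun b => ?_⟩
    have h1 : (b + fun _ => 1) ∈ hyp r ↔ b 0 + 1 = 0 := Iff.rfl
    have h2 : b ∈ hyp r ↔ b 0 = 0 := Iff.rfl
    rw [h1, h2]
    generalize b 0 = t
    revert t
    decide
  unfold f0
  rw [Pi.sub_apply, tr_apply, g, g, if_pos (by rw [add_zero]; exact (hyp r).zero_mem),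
    if_neg (by rw [add_zero, zero_add]; exact hx), hidx, sub_zero]
  rfl

lemma f0_lcs (r c : ℕ) :
    (⟨2 ^ c • f0 r, 0⟩ : W (r + 1)) ∈ (P0 (r + 1)).lowerCentralSeries c := by
  induction c with
  | zero =>
    rw [Subgroup.lowerCentralSeries_zero, mem_P0, pow_zero, one_smul]
    exact f0_mem r
  | succ c ih =>
    rw [Subgroup.lowerCentralSeries_succ]
    have hx : (⟨0, fun _ => 1⟩ : W (r + 1)) ∈ P0 (r + 1) := (B (r + 1)).zero_mem
    have h := commutator_mem_commutator ih hx
    have h1 : ⁅(⟨2 ^ c • f0 r, 0⟩ : W (r + 1)), (⟨0, fun _ => 1⟩ : W (r + 1))⁆ =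
        (⟨2 ^ (c + 1) • f0 r, 0⟩ : W (r + 1)) := by
      rw [commutatorElement_def]
      apply W.ext
      · simp only [mul_f, mul_x, inv_f, inv_x, tr_zero, map_zero, add_zero, zero_add, neg_zero,
          map_neg, map_nsmul, tr_f0]
        rw [smul_neg, neg_neg, ← add_smul]
        congr 1
        omega
      · simp only [mul_x, inv_x, zero_add, add_zero]
        exact E_add_self _
    rwa [h1] at h

lemma class_P0 (c : ℕ) : (P0 (c + 1)).lowerCentralSeries c ≠ ⊥ := by
  intro h
  have h1 := f0_lcs c c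
  rw [h, mem_bot] at h1
  have h2 : 2 ^ c • f0 c = 0 := congrArg W.f h1
  have h3 : (2 ^ c • f0 c) 0 = 0 := by rw [h2]; rfl
  rw [Pi.smul_apply, f0_apply, nsmul_eq_mul] at h3
  have h4 : (((2 ^ (c + 1) : ℕ)) : ZMod (2 ^ (c + 1 + 1))) = 0 := by
    push_cast at h3 ⊢
    have h5 : (2 : ZMod (2 ^ (c + 1 + 1))) ^ (c + 1) = 2 ^ c * 2 := pow_succ _ _
    rw [h5]
    exact h3
  exact two_pow_ne_zero (c + 1) h4

end Pool.Agent.helper17.DMax
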